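import Pool.Agent.W593.IR.Stm3

set_option autoImplicit false

/-! Project IR3: polynomial inequalities for `k = 4`. -/

namespace Pool.Agent.W110.IR

open Finset Pool.Agent.W890.SF Pool.Agent.W593.IR

theorem ph42 (ρ : ℝ) : Ph 4 2 ρ = ρ ^ 4 / 4 + 2 * (1 - ρ) * ρ ^ 3 + 6 * (1 - ρ) ^ 2 * ρ ^ 2 +
    4 * (1 - ρ) ^ 3 * ρ + (1 - ρ) ^ 4 := by
  unfold Ph
  simp only [Finset.sum_range_succ, Finset.sum_range_zero]
  norm_num [Nat.choose]
  ring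

theorem ph43 (ρ : ℝ) : Ph 4 3 ρ = 8 / 27 * ρ ^ 4 + 16 / 9 * (1 - ρ) * ρ ^ 3 +
    4 * (1 - ρ) ^ 2 * ρ ^ 2 + 4 * (1 - ρ) ^ 3 * ρ + (1 - ρ) ^ 4 := by
  unfold Ph
  simp only [Finset.sum_range_succ, Finset.sum_range_zero]
  norm_num [Nat.choose]
  ring

theorem bern (a b ρ : ℝ) (h1 : a ≤ ρ) (h2 : ρ ≤ b) :
    0 ≤ (b - ρ) ^ 4 ∧ 0 ≤ (ρ - a) * (b - ρ) ^ 3 ∧ 0 ≤ (ρ - a) ^ 2 * (b - ρ) ^ 2 ∧
      0 ≤ (ρ - a) ^ 3 * (b - ρ) ∧ 0 ≤ (ρ - a) ^ 4 := by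
  have h3 : 0 ≤ ρ - a := by linarith
  have h4 : 0 ≤ b - ρ := by linarith
  refine ⟨by positivity, by positivity, by positivity, by positivity, by positivity⟩

theorem ph4 : S_PH4 := by
  intro ρ h1 h2
  rw [ph42, ph43]
  rcases le_total ρ (89302 / 100000) with h | h
  · obtain ⟨b0, b1, b2, b3, b4⟩ := bern (32 / 37) (89302 / 100000) ρ h1 h
    constructor
    · refine (min_le_right _ _).trans ?_
      nlinarith [b0, b1, b2, b3, b4]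
    · refine (min_le_right _ _).trans ?_
      nlinarith [b0, b1, b2, b3, b4]
  · obtain ⟨b0, b1, b2, b3, b4⟩ := bern (89302 / 100000) (10 / 11) ρ h h2
    constructor
    · refine (min_le_left _ _).trans ?_
      nlinarith [b0, b1, b2, b3, b4]
    · refine (min_le_left _ _).trans ?_
      nlinarith [b0, b1, b2, b3, b4]

end Pool.Agent.W110.IR
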