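import Pool.Agent.W593.IR.Stm3

set_option autoImplicit false

/-! Project IR3: the relations between `P(S_{k-j} < 1)` and `E (1 - S_{k-j})^+`. -/

namespace Pool.Agent.W110.IR

open Finset Pool.Agent.W890.SF Pool.Agent.W593.IR

theorem PU_zero {ι : Type} [DecidableEq ι] (b q : ι → ℝ) (c : ℝ) (S : Finset ι) (hc : c ≤ 0)
    (hb : ∀ i ∈ S, 0 < b i) : PU b q c S = 0 := by
  unfold PU
  apply Finset.sum_eq_zero
  intro ω hω
  rw [if_neg]
  rw [not_lt]
  exact hc.trans (Finset.sum_nonneg fun i hi => (hb i (Finset.mem_powerset.1 hω hi)).le)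

theorem PG_zero {ι : Type} [DecidableEq ι] (b q : ι → ℝ) (c : ℝ) (S : Finset ι) (hc : c ≤ 0)
    (hb : ∀ i ∈ S, 0 < b i) : PG b q c S = 0 := by
  unfold PG
  apply Finset.sum_eq_zero
  intro ω hω
  rw [if_neg]
  rw [not_lt]
  exact hc.trans (Finset.sum_nonneg fun i hi => (hb i (Finset.mem_powerset.1 hω hi)).le)

theorem tp_prefix {k n : ℕ} (hn : n ≤ k) {x : ℝ} {a b q : ℕ → ℝ}
    (hT : TP k x (fun i : Fin k => a i) (fun i : Fin k => b i) (fun i : Fin k => q i)) :
    TP n x (fun i : Fin n => a i) (fun i : Fin n => b i) (fun i : Fin n => q i) where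
  a0 i := hT.a0 (Fin.castLE hn i)
  b0 i := hT.b0 (Fin.castLE hn i)
  q0 i := hT.q0 (Fin.castLE hn i)
  q1 i := hT.q1 (Fin.castLE hn i)
  mean i := hT.mean (Fin.castLE hn i)

theorem slack {n : ℕ} {x : ℝ} {a b q : ℕ → ℝ}
    (hT : TP n x (fun i : Fin n => a i) (fun i : Fin n => b i) (fun i : Fin n => q i)) :
    (1 - ∑ i : Fin n, a i) - ∑ i : Fin n, b i * q i = 1 - n * x := by
  have h : ∑ i : Fin n, (a i + b i * q i) = n * x := by
    rw [Finset.sum_congr rfl (fun i _ => hT.mean i), Finset.sum_const, Finset.card_univ,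
      Fintype.card_fin, nsmul_eq_mul]
  rw [Finset.sum_add_distrib] at h
  linarith

theorem facts (h1 : S_BAS) {n : ℕ} {x : ℝ} {a b q : ℕ → ℝ}
    (hT : TP n x (fun i : Fin n => a i) (fun i : Fin n => b i) (fun i : Fin n => q i)) :
    0 ≤ Us a b q n ∧ Us a b q n ≤ 1 ∧ 1 - n * x ≤ Gs a b q n ∧ Gs a b q n ≤ Us a b q n ∧
      (0 < Us a b q n → 0 < 1 - ∑ i : Fin n, a i) := by
  have hs := slack hT
  have hbq : 0 ≤ ∑ i : Fin n, b i * q i :=
    Finset.sum_nonneg fun i _ => mul_nonneg (hT.b0 i).le (hT.q0 i)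
  have ha : 0 ≤ ∑ i : Fin n, a i := Finset.sum_nonneg fun i _ => hT.a0 i
  have hb : ∀ i ∈ (univ : Finset (Fin n)), 0 < b i ∧ 0 ≤ q i ∧ q i < 1 := fun i _ =>
    ⟨hT.b0 i, hT.q0 i, hT.q1 i⟩
  unfold Us Gs PP
  rcases le_or_gt (1 - ∑ i : Fin n, a i) 0 with hc | hc
  · have e1 := PU_zero (fun i : Fin n => b i) (fun i : Fin n => q i) (1 - ∑ i : Fin n, a i) univ hc
      (fun i hi => (hb i hi).1)
    have e2 := PG_zero (fun i : Fin n => b i) (fun i : Fin n => q i) (1 - ∑ i : Fin n, a i) univ hc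
      (fun i hi => (hb i hi).1)
    rw [e1, e2]
    refine ⟨le_rfl, zero_le_one, by linarith, le_rfl, fun h => absurd h (lt_irrefl _)⟩
  · obtain ⟨p1, p2, p3, p4, _⟩ := h1 (Fin n) (fun i : Fin n => b i) (fun i : Fin n => q i)
      (1 - ∑ i : Fin n, a i) univ hc hb
    refine ⟨p1.le, p2, ?_, ?_, fun _ => hc⟩
    · rw [← hs]; exact p4
    · refine p3.trans ?_
      calc (1 - ∑ i : Fin n, a i) * PU (fun i : Fin n => b i) (fun i : Fin n => q i)
            (1 - ∑ i : Fin n, a i) univ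
          ≤ 1 * PU (fun i : Fin n => b i) (fun i : Fin n => q i) (1 - ∑ i : Fin n, a i) univ :=
            mul_le_mul_of_nonneg_right (by linarith) p1.le
        _ = _ := one_mul _

theorem seq (h1 : S_BAS) (h2 : S_GW) (h3 : S_FLR) : S_SEQ := by
  intro k hk a b q hT
  have hk0 : (0 : ℝ) < k := by exact_mod_cast hk
  have hx0 : (0 : ℝ) < 1 / (k : ℝ) := by positivity
  have hF : ∀ n : ℕ, n ≤ k → _ := fun n hn => facts h1 (tp_prefix hn hT)
  have hsl : ∀ j : ℕ, j ≤ k → (k : ℝ) * (1 - ((k - j : ℕ) : ℝ) * (1 / (k : ℝ))) = j := by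
    intro j hj
    rw [Nat.cast_sub hj]
    field_simp
    ring
  refine ⟨?_, ?_, ?_, ?_, ?_, ?_, ?_⟩
  · intro j _
    exact (hF (k - j) (Nat.sub_le _ _)).1
  · intro j _
    exact (hF (k - j) (Nat.sub_le _ _)).2.1
  · intro j hj
    have h := (hF (k - j) (Nat.sub_le _ _)).2.2.1
    have h' := mul_le_mul_of_nonneg_left h hk0.le
    rw [hsl j hj] at h'
    exact h'
  · intro j _
    exact mul_le_mul_of_nonneg_left (hF (k - j) (Nat.sub_le _ _)).2.2.2.1 hk0.le
  · show Us a b q (k - k) = 1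
    rw [Nat.sub_self]
    unfold Us PP PU Wt
    simp
  · intro j hj
    show (k : ℝ) * Gs a b q (k - (j + 1)) ≤ (k : ℝ) * Gs a b q (k - j) + Us a b q (k - (j + 1))
    obtain ⟨n, hn⟩ : ∃ n, k = n + (j + 1) := ⟨k - (j + 1), by omega⟩
    have e1 : k - (j + 1) = n := by omega
    have e2 : k - j = n + 1 := by omega
    rw [e1, e2]
    have h : Gs a b q n ≤ Gs a b q (n + 1) + 1 / (k : ℝ) * Us a b q n :=
      h2 n (1 / (k : ℝ)) hx0 (fun i : Fin (n + 1) => a i) (fun i : Fin (n + 1) => b i)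
        (fun i : Fin (n + 1) => q i) (tp_prefix (by omega) hT)
    have h' := mul_le_mul_of_nonneg_left h hk0.le
    rw [mul_add, ← mul_assoc, mul_one_div, div_self hk0.ne', one_mul] at h'
    exact h'
  · intro j hj m hjm g hmg hg hu hgu
    have hu : 0 < Us a b q (k - j) := hu
    have hgu : g * Us a b q (k - j) ≤ (k : ℝ) * Gs a b q (k - j) := hgu
    show (m : ℝ) * (1 - 1 / g) ^ (m - j) ≤ (k : ℝ) * Gs a b q (k - j)
    have hT' := tp_prefix (Nat.sub_le k j) hT
    have hc := (hF (k - j) (Nat.sub_le _ _)).2.2.2.2 hu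
    have hs := slack hT'
    have hg0 : 0 < g := lt_of_lt_of_le one_pos hg
    have hjm' : ((m - j : ℕ) : ℝ) = m - j := Nat.cast_sub hjm
    have hval : (1 - ∑ i : Fin (k - j), a i) - ∑ i : Fin (k - j), b i * q i
        + ((m - j : ℕ) : ℝ) * (1 / (k : ℝ)) = m / k := by
      rw [hs, hjm', Nat.cast_sub hj]
      field_simp
      ring
    have h := h3 (Fin (k - j)) (fun i : Fin (k - j) => b i) (fun i : Fin (k - j) => q i)
      (1 - ∑ i : Fin (k - j), a i) (1 / (k : ℝ)) (g / k) univ (m - j) hc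
      (fun i _ => ⟨hT'.b0 i, hT'.q0 i, hT'.q1 i⟩)
      (fun i _ => by
        have e1 : a i + b i * q i = 1 / (k : ℝ) := hT'.mean i
        have e2 : 0 ≤ a i := hT'.a0 i
        show b i * q i ≤ 1 / (k : ℝ)
        linarith)
      hx0 (by gcongr) ?_ ?_
    · have e3 : 1 - 1 / (k : ℝ) / (g / k) = 1 - 1 / g := by
        field_simp
      have h' := mul_le_mul_of_nonneg_left h hk0.le
      rw [hval, e3] at h'
      have e4 : (k : ℝ) * (m / k * (1 - 1 / g) ^ (m - j)) = m * (1 - 1 / g) ^ (m - j) := by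
        field_simp
      rw [e4] at h'
      exact h'
    · show g / k * Us a b q (k - j) ≤ Gs a b q (k - j)
      rw [div_mul_eq_mul_div, div_le_iff₀ hk0]
      linarith
    · rw [hval]
      gcongr

end Pool.Agent.W110.IR
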